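import Mathlib

set_option autoImplicit false

/-! Project NV of helper802: counting with a smooth window, the elementary part. -/

open Complex

namespace Pool.Agent.N681.NV

/-- the difference of the indicator function and the smoothed window -/
noncomputable def ee (G : ℂ → ℂ) (h : ℝ) (z : ℂ) : ℂ :=
  (if |z.re| ≤ h then 1 else 0) - G z * cexp (-z ^ 2 / 2)

/-- the decay -/
noncomputable def qq (η L h u : ℝ) : ℝ := ((1 + η * L * |(|u| - h)|) ^ 3)⁻¹

/-- the weights of the cells -/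
noncomputable def wc (η : ℝ) (j : ℤ) : ℝ := ((1 + η * max 0 (2 * |(j : ℝ)| - 1)) ^ 3)⁻¹

lemma norm_gauss (z : ℂ) : ‖cexp (-z ^ 2 / 2)‖ = Real.exp ((z.im ^ 2 - z.re ^ 2) / 2) := by
  rw [Complex.norm_exp]
  congr 1
  have : (-z ^ 2 / 2 : ℂ).re = (z.im ^ 2 - z.re ^ 2) / 2 := by
    rw [show (-z ^ 2 / 2 : ℂ) = ((1 / 2 : ℝ) : ℂ) * (-(z * z)) by push_cast; ring]
    rw [Complex.re_ofReal_mul, Complex.neg_re, Complex.mul_re]
    ring
  exact this

lemma exp_eighth : Real.exp (1 / 8) ≤ 2 := by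
  have h := Real.exp_one_lt_d9
  have h2 : Real.exp (1 / 8) ≤ Real.exp 1 := Real.exp_le_exp.2 (by norm_num)
  -- exp (1/8) ^ 8 = e < 2 ^ 8
  have h3 : Real.exp (1 / 8) ^ 8 = Real.exp 1 := by
    rw [← Real.exp_nat_mul]
    norm_num
  by_contra hcon
  push Not at hcon
  have h4 : (2 : ℝ) ^ 8 < Real.exp (1 / 8) ^ 8 := pow_lt_pow_left₀ hcon (by norm_num) (by norm_num)
  rw [h3] at h4
  norm_num at h4
  linarith

section

variable {G : ℂ → ℂ} {C1 η κ L h : ℝ}

/-- far zeros -/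
lemma far (hC1 : 1 ≤ C1) (hη : 0 < η) (hηκ : η ≤ κ / 2) (hκ : κ ≤ 1) (hL : 3 ≤ L) (hh : 0 < h)
    (hh1 : h ≤ 1)
    (hG : ∀ z : ℂ, ‖G z - (if |z.re| ≤ h then 1 else 0)‖ ≤
      C1 * Real.exp (η * L * |z.im|) * ((1 + η * L * |(|z.re| - h)|) ^ 3)⁻¹)
    {z : ℂ} (hz : |z.im| ≤ 1 / 2) (hu : L < |z.re|) :
    ‖ee G h z‖ ≤ C1 * Real.exp (L / 2 - L ^ 2 / 2) := by
  have h1 : ¬ |z.re| ≤ h := by
    push Not
    linarith
  have h2 := hG z
  rw [if_neg h1, sub_zero] at h2
  unfold ee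
  rw [if_neg h1, zero_sub, norm_neg, norm_mul, norm_gauss]
  have h3 : ((1 + η * L * |(|z.re| - h)|) ^ 3)⁻¹ ≤ 1 := by
    apply inv_le_one_of_one_le₀
    apply one_le_pow₀
    have : 0 ≤ η * L * |(|z.re| - h)| := by positivity
    linarith
  have h4 : ‖G z‖ ≤ C1 * Real.exp (L / 4) := by
    refine h2.trans ?_
    have h5 : Real.exp (η * L * |z.im|) ≤ Real.exp (L / 4) := by
      apply Real.exp_le_exp.2
      have h6 : η ≤ 1 / 2 := by linarith
      have h7 : η * L * |z.im| ≤ 1 / 2 * L * (1 / 2) := by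
        apply mul_le_mul _ hz (abs_nonneg _) (by positivity)
        exact mul_le_mul_of_nonneg_right h6 (by linarith)
      linarith
    have h8 : 0 ≤ C1 * Real.exp (η * L * |z.im|) := by positivity
    calc C1 * Real.exp (η * L * |z.im|) * ((1 + η * L * |(|z.re| - h)|) ^ 3)⁻¹
        ≤ C1 * Real.exp (η * L * |z.im|) * 1 := mul_le_mul_of_nonneg_left h3 h8
      _ ≤ C1 * Real.exp (L / 4) := by
        rw [mul_one]
        exact mul_le_mul_of_nonneg_left h5 (by linarith)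
  have h9 : Real.exp ((z.im ^ 2 - z.re ^ 2) / 2) ≤ Real.exp (1 / 8 - L ^ 2 / 2) := by
    apply Real.exp_le_exp.2
    have e1 : z.im ^ 2 ≤ (1 / 2) ^ 2 := by
      rw [← sq_abs]
      exact pow_le_pow_left₀ (abs_nonneg _) hz 2
    have e2 : L ^ 2 ≤ z.re ^ 2 := by
      rw [← sq_abs z.re]
      exact pow_le_pow_left₀ (by linarith) hu.le 2
    linarith
  calc ‖G z‖ * Real.exp ((z.im ^ 2 - z.re ^ 2) / 2)
      ≤ (C1 * Real.exp (L / 4)) * Real.exp (1 / 8 - L ^ 2 / 2) :=
        mul_le_mul h4 h9 (Real.exp_pos _).le (by positivity)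
    _ = C1 * Real.exp (L / 4 + (1 / 8 - L ^ 2 / 2)) := by rw [Real.exp_add]; ring
    _ ≤ C1 * Real.exp (L / 2 - L ^ 2 / 2) := by
      apply mul_le_mul_of_nonneg_left _ (by linarith)
      apply Real.exp_le_exp.2
      linarith

/-- near zeros -/
lemma near (hC1 : 1 ≤ C1) (hη : 0 < η) (hηκ : η ≤ κ / 2) (hκ : κ ≤ 1) (hL : 3 ≤ L) (hh : 0 < h)
    (hh1 : h ≤ 1)
    (hG : ∀ z : ℂ, ‖G z - (if |z.re| ≤ h then 1 else 0)‖ ≤
      C1 * Real.exp (η * L * |z.im|) * ((1 + η * L * |(|z.re| - h)|) ^ 3)⁻¹)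
    (hs : (1 + η * L * h) ^ 3 * (h ^ 2 + 8 / (κ * L) ^ 2) ≤ 1)
    {z : ℂ} (hz : |z.im| ≤ 1 / 2) :
    ‖ee G h z‖ ≤ 3 * C1 * Real.exp (κ * (|z.im| * L)) * qq η L h z.re := by
  have hκ0 : 0 < κ := by linarith
  have hL0 : 0 < L := by linarith
  have hA : 0 ≤ |z.im| * L := by positivity
  have hq : 0 < qq η L h z.re := by
    unfold qq
    positivity
  -- the norm of the Gaussian
  have hg : ‖cexp (-z ^ 2 / 2)‖ ≤ 2 := by
    rw [norm_gauss]
    refine le_trans (Real.exp_le_exp.2 ?_) exp_eighth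
    have e1 : z.im ^ 2 ≤ (1 / 2) ^ 2 := by
      rw [← sq_abs]
      exact pow_le_pow_left₀ (abs_nonneg _) hz 2
    nlinarith [sq_nonneg z.re]
  have he : Real.exp (η * L * |z.im|) ≤ Real.exp (κ / 2 * (|z.im| * L)) := by
    apply Real.exp_le_exp.2
    have := mul_le_mul_of_nonneg_right hηκ hA
    linarith
  have he2 : Real.exp (κ / 2 * (|z.im| * L)) ≤ Real.exp (κ * (|z.im| * L)) := by
    apply Real.exp_le_exp.2
    nlinarith
  have hG1 : ‖G z - (if |z.re| ≤ h then 1 else 0)‖ ≤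
      C1 * Real.exp (κ * (|z.im| * L)) * qq η L h z.re := by
    refine (hG z).trans ?_
    unfold qq
    have : 0 ≤ ((1 + η * L * |(|z.re| - h)|) ^ 3)⁻¹ := by positivity
    apply mul_le_mul_of_nonneg_right _ this
    exact mul_le_mul_of_nonneg_left (he.trans he2) (by linarith)
  have hpos : 0 ≤ C1 * Real.exp (κ * (|z.im| * L)) * qq η L h z.re := by positivity
  by_cases hu : |z.re| ≤ h
  · rw [if_pos hu] at hG1
    unfold ee
    rw [if_pos hu]
    have e0 : (1 : ℂ) - G z * cexp (-z ^ 2 / 2) =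
        -((G z - 1) * cexp (-z ^ 2 / 2)) + (1 - cexp (-z ^ 2 / 2)) := by ring
    rw [e0]
    have hsq : ‖(z ^ 2 / 2 : ℂ)‖ = (z.re ^ 2 + z.im ^ 2) / 2 := by
      rw [norm_div, norm_pow, ← Complex.normSq_eq_norm_sq, Complex.normSq_apply]
      norm_num
      ring
    have e1 : z.im ^ 2 ≤ (1 / 2) ^ 2 := by
      rw [← sq_abs]
      exact pow_le_pow_left₀ (abs_nonneg _) hz 2
    have e2 : z.re ^ 2 ≤ h ^ 2 := by
      rw [← sq_abs z.re]
      exact pow_le_pow_left₀ (abs_nonneg _) hu 2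
    have e3 : h ^ 2 ≤ 1 := by nlinarith
    have e4 : ‖(-z ^ 2 / 2 : ℂ)‖ ≤ 1 := by
      rw [show (-z ^ 2 / 2 : ℂ) = -(z ^ 2 / 2) by ring, norm_neg, hsq]
      linarith
    have e5 : ‖1 - cexp (-z ^ 2 / 2)‖ ≤ z.re ^ 2 + z.im ^ 2 := by
      have := Complex.norm_exp_sub_one_le e4
      rw [norm_sub_rev]
      refine this.trans ?_
      rw [show (-z ^ 2 / 2 : ℂ) = -(z ^ 2 / 2) by ring, norm_neg, hsq]
      linarith
    -- the second term
    have e6 : (κ / 2 * (|z.im| * L)) ^ 2 / 2 ≤ Real.exp (κ / 2 * (|z.im| * L)) := by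
      have h0 : 0 ≤ κ / 2 * (|z.im| * L) := by positivity
      have := Real.quadratic_le_exp_of_nonneg h0
      linarith
    have e7 : z.im ^ 2 ≤ 8 / (κ * L) ^ 2 * Real.exp (κ / 2 * (|z.im| * L)) := by
      have h0 : 0 < (κ * L) ^ 2 := by positivity
      rw [div_mul_eq_mul_div, le_div_iff₀ h0]
      have : (κ / 2 * (|z.im| * L)) ^ 2 / 2 = z.im ^ 2 * (κ * L) ^ 2 / 8 := by
        rw [← sq_abs z.im]
        ring
      linarith
    have hexp1 : 1 ≤ Real.exp (κ / 2 * (|z.im| * L)) := by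
      rw [← Real.exp_zero]
      exact Real.exp_le_exp.2 (by positivity)
    have e8 : z.re ^ 2 + z.im ^ 2 ≤ Real.exp (κ / 2 * (|z.im| * L)) * (h ^ 2 + 8 / (κ * L) ^ 2) := by
      have : h ^ 2 * 1 ≤ h ^ 2 * Real.exp (κ / 2 * (|z.im| * L)) :=
        mul_le_mul_of_nonneg_left hexp1 (sq_nonneg _)
      linarith
    have hP : 0 < (1 + η * L * h) ^ 3 := by positivity
    have e9 : h ^ 2 + 8 / (κ * L) ^ 2 ≤ ((1 + η * L * h) ^ 3)⁻¹ := by
      rw [← one_div, le_div_iff₀ hP]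
      linarith
    have e10 : ((1 + η * L * h) ^ 3)⁻¹ ≤ qq η L h z.re := by
      unfold qq
      apply inv_anti₀ (by positivity)
      apply pow_le_pow_left₀ (by positivity)
      have h3 : |(|z.re| - h)| ≤ h := by
        rw [abs_le]
        constructor
        · linarith [abs_nonneg z.re]
        · linarith
      have := mul_le_mul_of_nonneg_left h3 (by positivity : 0 ≤ η * L)
      linarith
    have e11 : z.re ^ 2 + z.im ^ 2 ≤ Real.exp (κ * (|z.im| * L)) * qq η L h z.re := by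
      refine e8.trans ?_
      exact mul_le_mul he2 (e9.trans e10) (by positivity) (Real.exp_pos _).le
    have e12 : ‖(G z - 1) * cexp (-z ^ 2 / 2)‖ ≤
        (C1 * Real.exp (κ * (|z.im| * L)) * qq η L h z.re) * 2 := by
      rw [norm_mul]
      exact mul_le_mul hG1 hg (norm_nonneg _) hpos
    have e13 : Real.exp (κ * (|z.im| * L)) * qq η L h z.re ≤
        C1 * Real.exp (κ * (|z.im| * L)) * qq η L h z.re := by
      have h0 : 0 ≤ Real.exp (κ * (|z.im| * L)) * qq η L h z.re := by positivity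
      nlinarith
    refine (norm_add_le _ _).trans ?_
    rw [norm_neg]
    linarith
  · rw [if_neg hu, sub_zero] at hG1
    unfold ee
    rw [if_neg hu, zero_sub, norm_neg, norm_mul]
    have := mul_le_mul hG1 hg (norm_nonneg _) hpos
    linarith

/-- the cell of a number -/
lemma cell (hη : 0 < η) (hL : 3 ≤ L) {v : ℝ} (hv : |v| ≤ L + 1) :
    ∃ j ∈ Finset.Icc (-(⌈L ^ 2⌉₊ : ℤ)) ⌈L ^ 2⌉₊, |v - 2 * j / L| ≤ 1 / L ∧
      ((1 + η * L * |v|) ^ 3)⁻¹ ≤ wc η j := by
  have hL0 : 0 < L := by linarith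
  have h1 := abs_sub_round (v * L / 2)
  set j : ℤ := round (v * L / 2) with hj
  have h2 : |(j : ℝ)| ≤ |v| * L / 2 + 1 / 2 := by
    have e1 : |(j : ℝ)| ≤ |v * L / 2| + |v * L / 2 - j| := by
      have := abs_sub_abs_le_abs_sub (j : ℝ) (v * L / 2)
      rw [abs_sub_comm] at this
      linarith
    rw [abs_div, abs_mul, abs_of_pos hL0, abs_two] at e1
    linarith
  refine ⟨j, ?_, ?_, ?_⟩
  · rw [Finset.mem_Icc, ← abs_le]
    have e2 : |v| * L ≤ (L + 1) * L := mul_le_mul_of_nonneg_right hv hL0.le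
    have e3 : |(j : ℝ)| ≤ L ^ 2 := by nlinarith
    have e4 : |(j : ℝ)| ≤ (⌈L ^ 2⌉₊ : ℝ) := e3.trans (Nat.le_ceil _)
    have e5 : ((|j| : ℤ) : ℝ) ≤ ((⌈L ^ 2⌉₊ : ℤ) : ℝ) := by
      rw [Int.cast_abs]
      exact_mod_cast e4
    exact_mod_cast e5
  · have e1 : v - 2 * j / L = (v * L / 2 - j) * (2 / L) := by field_simp
    rw [e1, abs_mul, abs_of_pos (by positivity : 0 < 2 / L)]
    calc |v * L / 2 - j| * (2 / L) ≤ 1 / 2 * (2 / L) := mul_le_mul_of_nonneg_right h1 (by positivity)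
      _ = 1 / L := by field_simp
  · unfold wc
    apply inv_anti₀ (by positivity)
    apply pow_le_pow_left₀ (by positivity)
    have e1 : max 0 (2 * |(j : ℝ)| - 1) ≤ L * |v| := by
      apply max_le (by positivity)
      linarith
    have := mul_le_mul_of_nonneg_left e1 hη.le
    linarith

open Classical in
/-- the zeros in a cell -/
noncomputable def XX (Z : Finset ℂ) (m : ℂ → ℝ) (w : ℂ → ℂ) (κ L x : ℝ) : ℝ :=
  ∑ s ∈ Z.filter (fun s => |(w s).re - x| ≤ 1 / L), m s * Real.exp (κ * (|(w s).im| * L))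

lemma wc_nonneg (hη : 0 < η) (j : ℤ) : 0 ≤ wc η j := by
  unfold wc
  positivity

/-- the main inequality -/
theorem core (hC1 : 1 ≤ C1) (hη : 0 < η) (hηκ : η ≤ κ / 2) (hκ : κ ≤ 1) (hL : 3 ≤ L) (hh : 0 < h)
    (hh1 : h ≤ 1)
    (hG : ∀ z : ℂ, ‖G z - (if |z.re| ≤ h then 1 else 0)‖ ≤
      C1 * Real.exp (η * L * |z.im|) * ((1 + η * L * |(|z.re| - h)|) ^ 3)⁻¹)
    (hs : (1 + η * L * h) ^ 3 * (h ^ 2 + 8 / (κ * L) ^ 2) ≤ 1)
    (Z : Finset ℂ) (m : ℂ → ℝ) (w : ℂ → ℂ) (hm : ∀ s, 0 ≤ m s) (hw : ∀ s ∈ Z, |(w s).im| ≤ 1 / 2)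
    (hmass : (∑ s ∈ Z, m s) * Real.exp (L / 2 - L ^ 2 / 2) ≤ 1) (x : ℝ) :
    ‖∑ s ∈ Z, (m s : ℂ) * ee G h (w s - x)‖ ≤
      3 * C1 * (1 + ∑ j ∈ Finset.Icc (-(⌈L ^ 2⌉₊ : ℤ)) ⌈L ^ 2⌉₊, wc η j *
        (XX Z m w κ L (x - h + 2 * j / L) + XX Z m w κ L (x + h + 2 * j / L))) := by
  classical
  have hL0 : 0 < L := by linarith
  have hre : ∀ s, (w s - x).re = (w s).re - x := by
    intro s
    simp
  have him : ∀ s, (w s - x).im = (w s).im := by
    intro s
    simp
  -- one zero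
  have hone : ∀ s ∈ Z, ‖(m s : ℂ) * ee G h (w s - x)‖ ≤
      m s * (C1 * Real.exp (L / 2 - L ^ 2 / 2)) +
      3 * C1 * ∑ j ∈ Finset.Icc (-(⌈L ^ 2⌉₊ : ℤ)) ⌈L ^ 2⌉₊, wc η j *
        ((if |(w s).re - (x - h + 2 * j / L)| ≤ 1 / L then m s * Real.exp (κ * (|(w s).im| * L)) else 0) +
        (if |(w s).re - (x + h + 2 * j / L)| ≤ 1 / L then m s * Real.exp (κ * (|(w s).im| * L)) else 0)) := by
    intro s hsZ
    have hms := hm s
    have hws := hw s hsZ
    rw [norm_mul, Complex.norm_real, Real.norm_of_nonneg hms]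
    have hterm : ∀ j : ℤ, 0 ≤ wc η j *
        ((if |(w s).re - (x - h + 2 * j / L)| ≤ 1 / L then m s * Real.exp (κ * (|(w s).im| * L)) else 0) +
        (if |(w s).re - (x + h + 2 * j / L)| ≤ 1 / L then m s * Real.exp (κ * (|(w s).im| * L)) else 0)) := by
      intro j
      apply mul_nonneg (wc_nonneg hη j)
      apply add_nonneg <;> split_ifs <;> positivity
    rcases lt_or_ge L |(w s).re - x| with hu | hu
    · have h1 := far (z := w s - x) hC1 hη hηκ hκ hL hh hh1 hG (by rw [him]; exact hws) (by rw [hre]; exact hu)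
      have h2 := mul_le_mul_of_nonneg_left h1 hms
      have h3 : 0 ≤ ∑ j ∈ Finset.Icc (-(⌈L ^ 2⌉₊ : ℤ)) ⌈L ^ 2⌉₊, wc η j *
        ((if |(w s).re - (x - h + 2 * j / L)| ≤ 1 / L then m s * Real.exp (κ * (|(w s).im| * L)) else 0) +
        (if |(w s).re - (x + h + 2 * j / L)| ≤ 1 / L then m s * Real.exp (κ * (|(w s).im| * L)) else 0)) :=
        Finset.sum_nonneg fun j _ => hterm j
      have h4 : 0 ≤ 3 * C1 := by linarith
      have h5 := mul_nonneg h4 h3
      linarith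
    · have h1 := near (z := w s - x) hC1 hη hηκ hκ hL hh hh1 hG hs (by rw [him]; exact hws)
      rw [him, hre] at h1
      have hcell : ∃ j ∈ Finset.Icc (-(⌈L ^ 2⌉₊ : ℤ)) ⌈L ^ 2⌉₊,
          m s * Real.exp (κ * (|(w s).im| * L)) * qq η L h ((w s).re - x) ≤ wc η j *
          ((if |(w s).re - (x - h + 2 * j / L)| ≤ 1 / L then m s * Real.exp (κ * (|(w s).im| * L)) else 0) +
          (if |(w s).re - (x + h + 2 * j / L)| ≤ 1 / L then m s * Real.exp (κ * (|(w s).im| * L)) else 0)) := by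
        have hE : 0 ≤ m s * Real.exp (κ * (|(w s).im| * L)) := by positivity
        rcases le_or_gt 0 ((w s).re - x) with hp | hn
        · have hq : qq η L h ((w s).re - x) = ((1 + η * L * |(w s).re - x - h|) ^ 3)⁻¹ := by
            unfold qq
            rw [abs_of_nonneg hp]
          have hv : |(w s).re - x - h| ≤ L + 1 := by
            have := abs_sub ((w s).re - x) h
            rw [abs_of_pos hh] at this
            linarith
          obtain ⟨j, hj, hj1, hj2⟩ := cell (η := η) hη hL hv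
          refine ⟨j, hj, ?_⟩
          have h3 : |(w s).re - (x + h + 2 * j / L)| ≤ 1 / L := by
            rw [show (w s).re - (x + h + 2 * j / L) = (w s).re - x - h - 2 * j / L by ring]
            exact hj1
          rw [if_pos h3, hq, mul_add]
          have h4 : 0 ≤ wc η j * (if |(w s).re - (x - h + 2 * j / L)| ≤ 1 / L then
              m s * Real.exp (κ * (|(w s).im| * L)) else 0) := by
            apply mul_nonneg (wc_nonneg hη j)
            split_ifs <;> positivity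
          have h5 := mul_le_mul_of_nonneg_left hj2 hE
          linarith
        · have hq : qq η L h ((w s).re - x) = ((1 + η * L * |(w s).re - x + h|) ^ 3)⁻¹ := by
            unfold qq
            rw [abs_of_neg hn, show -((w s).re - x) - h = -((w s).re - x + h) by ring, abs_neg]
          have hv : |(w s).re - x + h| ≤ L + 1 := by
            have := abs_add_le ((w s).re - x) h
            rw [abs_of_pos hh] at this
            linarith
          obtain ⟨j, hj, hj1, hj2⟩ := cell (η := η) hη hL hv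
          refine ⟨j, hj, ?_⟩
          have h3 : |(w s).re - (x - h + 2 * j / L)| ≤ 1 / L := by
            rw [show (w s).re - (x - h + 2 * j / L) = (w s).re - x + h - 2 * j / L by ring]
            exact hj1
          rw [if_pos h3, hq, mul_add]
          have h4 : 0 ≤ wc η j * (if |(w s).re - (x + h + 2 * j / L)| ≤ 1 / L then
              m s * Real.exp (κ * (|(w s).im| * L)) else 0) := by
            apply mul_nonneg (wc_nonneg hη j)
            split_ifs <;> positivity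
          have h5 := mul_le_mul_of_nonneg_left hj2 hE
          linarith
      obtain ⟨j, hj, hj1⟩ := hcell
      have h3 := Finset.single_le_sum (f := fun j : ℤ => wc η j *
        ((if |(w s).re - (x - h + 2 * j / L)| ≤ 1 / L then m s * Real.exp (κ * (|(w s).im| * L)) else 0) +
        (if |(w s).re - (x + h + 2 * j / L)| ≤ 1 / L then m s * Real.exp (κ * (|(w s).im| * L)) else 0)))
        (fun j _ => hterm j) hj
      have h4 := mul_le_mul_of_nonneg_left h1 hms
      have h5 : m s * (3 * C1 * Real.exp (κ * (|(w s).im| * L)) * qq η L h ((w s).re - x)) =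
          3 * C1 * (m s * Real.exp (κ * (|(w s).im| * L)) * qq η L h ((w s).re - x)) := by ring
      rw [h5] at h4
      have h6 : 0 ≤ 3 * C1 := by linarith
      have h7 := mul_le_mul_of_nonneg_left (hj1.trans h3) h6
      have h8 : 0 ≤ m s * (C1 * Real.exp (L / 2 - L ^ 2 / 2)) := by positivity
      linarith
  refine (norm_sum_le _ _).trans ((Finset.sum_le_sum hone).trans ?_)
  rw [Finset.sum_add_distrib, ← Finset.sum_mul, ← Finset.mul_sum, Finset.sum_comm]
  have h1 : ∀ j : ℤ, ∑ s ∈ Z, wc η j *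
      ((if |(w s).re - (x - h + 2 * j / L)| ≤ 1 / L then m s * Real.exp (κ * (|(w s).im| * L)) else 0) +
      (if |(w s).re - (x + h + 2 * j / L)| ≤ 1 / L then m s * Real.exp (κ * (|(w s).im| * L)) else 0)) =
      wc η j * (XX Z m w κ L (x - h + 2 * j / L) + XX Z m w κ L (x + h + 2 * j / L)) := by
    intro j
    rw [← Finset.mul_sum, Finset.sum_add_distrib]
    unfold XX
    rw [Finset.sum_filter, Finset.sum_filter]
  rw [Finset.sum_congr rfl fun j _ => h1 j]
  have h2 : (∑ s ∈ Z, m s) * (C1 * Real.exp (L / 2 - L ^ 2 / 2)) ≤ C1 := by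
    have := mul_le_mul_of_nonneg_left hmass (by linarith : 0 ≤ C1)
    linarith
  rw [mul_add (3 * C1)]
  linarith

end

end Pool.Agent.N681.NV
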